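import Pool.Agent.Helper905RS.Search

/-!
The graph is cyclically 6-edge-connected.
-/

set_option autoImplicit false

namespace Pool.Agent.Helper905RS

open Pool.Agent.Helper316TS

theorem Mk_zero {β : ℕ → Bool} (n : ℕ) (h : ∀ j, j < n → β j = false) : Mk β n = 0 := by
  induction n with
  | zero => rfl
  | succ n ih =>
    have h1 := h n (Nat.lt_succ_self n)
    have h2 := ih fun j hj => h j (by omega)
    simp [Mk, h1, h2]

theorem Cn_zero {β : ℕ → Bool} (n : ℕ) (h : ∀ j, j < n → β j = false) : Cn β n = 0 := by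
  unfold Cn
  refine Finset.sum_eq_zero fun i hi => ?_
  rw [Finset.mem_range] at hi
  have key : ∀ j, tt β i j = 0 := by
    intro j
    unfold tt
    rw [if_neg]
    rintro ⟨h1, h2⟩
    exact h2 (by rw [h i hi, h _ (lt_trans h1 hi)])
  simp [key]

theorem Tn_zero {β : ℕ → Bool} (n : ℕ) (h : ∀ j, j < n → β j = false) : Tn β n = 0 := by
  unfold Tn
  refine Finset.sum_eq_zero fun i hi => ?_
  rw [Finset.mem_range] at hi
  rw [h i hi]
  rfl

theorem srch_start {β : ℕ → Bool} (h0 : β 0 = false) (hC : Cn β 190 ≤ 5) :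
    Tn β 190 ≤ 5 ∨ 185 ≤ Tn β 190 := by
  by_cases hex : ∃ i, i < 190 ∧ β i = true
  · obtain ⟨i, ⟨hi, hb⟩, hmin⟩ : ∃ i, (i < 190 ∧ β i = true) ∧ ∀ j, j < i → β j = false := by
      classical
      refine ⟨Nat.find hex, Nat.find_spec hex, fun j hj => ?_⟩
      have h1 := Nat.find_min hex hj
      have h2 := (Nat.find_spec hex).1
      cases hc : β j with
      | false => rfl
      | true => exact absurd ⟨by omega, hc⟩ h1
    have hi1 : 1 ≤ i := by
      rcases Nat.eq_zero_or_pos i with h | h
      · rw [h, h0] at hb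
        exact absurd hb (by simp)
      · exact h
    have e1 : Mk β (i + 1) = 2 ^ i := by simp [Mk, hb, Mk_zero i hmin]
    have e2 : Cn β (i + 1) = Lt i := by
      have h1 : Cn β (i + 1) = Cn β i + (tt β i 0 + tt β i 1 + tt β i 2) := by
        unfold Cn; rw [Finset.sum_range_succ]
      have key : ∀ j, tt β i j = lj i j := by
        intro j
        rw [← tt_true (j := j) hb]
        by_cases h2 : pp i j < i
        · rw [hmin _ h2]
          simp [bt]
        · simp [h2, bt]
      rw [h1, Cn_zero i hmin, key, key, key, (O_spec hi).2.2.2.2.2]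
      omega
    have e3 : Tn β (i + 1) = 1 := by
      have h1 : Tn β (i + 1) = Tn β i + bt (β i) := by
        unfold Tn; rw [Finset.sum_range_succ]
      rw [h1, Tn_zero i hmin, hb]
      rfl
    have h1 : srch (190 - (i + 1)) (i + 1) (Mk β (i + 1)) (Cn β (i + 1)) (Tn β (i + 1)) = true := by
      rw [e1, e2, e3]
      have h2 : 190 - (i + 1) = 189 - i := by omega
      rw [h2]
      exact first_true hi1 hi
    have h2 := srch_sound β hC 190 le_rfl (i + 1) (by omega) h1
    rw [Nat.sub_self, srch_zero, Bool.or_eq_true, Nat.ble_eq, Nat.ble_eq] at h2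
    exact h2
  · left
    have h1 : Tn β 190 = 0 := by
      refine Tn_zero 190 fun j hj => ?_
      cases hc : β j with
      | false => rfl
      | true => exact absurd ⟨j, hj, hc⟩ hex
    omega

theorem Tn_not (β : ℕ → Bool) (n : ℕ) : Tn (fun i => !β i) n + Tn β n = n := by
  induction n with
  | zero => simp [Tn]
  | succ n ih =>
    have h1 : Tn (fun i => !β i) (n + 1) = Tn (fun i => !β i) n + bt (!β n) := by
      unfold Tn; rw [Finset.sum_range_succ]
    have h2 : Tn β (n + 1) = Tn β n + bt (β n) := by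
      unfold Tn; rw [Finset.sum_range_succ]
    rw [h1, h2]
    cases hb : β n <;> simp [bt] <;> omega

theorem tt_not (β : ℕ → Bool) (i j : ℕ) : tt (fun i => !β i) i j = tt β i j := by
  unfold tt
  cases h1 : β i <;> cases h2 : β (pp i j) <;> simp [h1, h2]

theorem few {β : ℕ → Bool} (hC : Cn β 190 ≤ 5) :
    Tn β 190 ≤ 5 ∨ Tn (fun i => !β i) 190 ≤ 5 := by
  have hn := Tn_not β 190
  cases h0 : β 0 with
  | false =>
    have := srch_start h0 hC
    omega
  | true =>
    have h1 : Cn (fun i => !β i) 190 ≤ 5 := by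
      unfold Cn
      simp only [tt_not]
      exact hC
    have := srch_start (β := fun i => !β i) (by simp [h0]) h1
    omega

theorem Tn_eq (β : ℕ → Bool) :
    Tn β 190 = ((Finset.range 190).filter fun i => β i = true).card := by
  unfold Tn bt
  rw [Finset.card_filter]

theorem Cn_eq (β : ℕ → Bool) :
    Cn β 190 = (((Finset.range 190) ×ˢ (Finset.range 3)).filter
      fun x => pp x.1 x.2 < x.1 ∧ β x.1 ≠ β (pp x.1 x.2)).card := by
  rw [Finset.card_filter, Finset.sum_product]
  unfold Cn tt
  refine Finset.sum_congr rfl fun i _ => ?_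
  rw [Finset.sum_range_succ, Finset.sum_range_succ, Finset.sum_range_succ, Finset.sum_range_zero,
    Nat.zero_add]

/-- six different vertices on a cycle -/
theorem six {D : Set (Sym2 (Fin 190))} {v : Fin 190} (p : (G.deleteEdges D).Walk v v)
    (hp : p.IsCycle) (β : ℕ → Bool)
    (hβ : ∀ u : Fin 190, (G.deleteEdges D).Reachable v u → β (ps u.val) = true) :
    6 ≤ Tn β 190 := by
  have hle : G.deleteEdges D ≤ G := SimpleGraph.deleteEdges_le D
  have hl : 6 ≤ p.length := by
    have h1 := cycle_len (p.mapLe hle) (SimpleGraph.Walk.IsCycle.mapLe hle hp)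
    rwa [SimpleGraph.Walk.length_mapLe] at h1
  rw [Tn_eq]
  have hcard : (Finset.range 6).card ≤
      ((Finset.range 190).filter fun i => β i = true).card := by
    refine Finset.card_le_card_of_injOn (fun k => ps (p.getVert (k + 1)).val) ?_ ?_
    · intro k hk
      rw [Finset.coe_filter]
      refine ⟨?_, ?_⟩
      · rw [Finset.mem_range]
        exact (O_spec (p.getVert (k + 1)).isLt).2.1
      · exact hβ _ (p.take (k + 1)).reachable
    · intro a ha b hb hab
      rw [Finset.mem_coe, Finset.mem_range] at ha hb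
      have h1 : (p.getVert (a + 1)).val = (p.getVert (b + 1)).val := by
        have e1 := (O_spec (p.getVert (a + 1)).isLt).2.2.2.1
        have e2 := (O_spec (p.getVert (b + 1)).isLt).2.2.2.1
        rw [← e1, ← e2]
        exact congrArg ov hab
      have := hp.getVert_injOn (x₁ := a + 1) (x₂ := b + 1)
        (by simp only [Set.mem_ofPred_eq]; omega)
        (by simp only [Set.mem_ofPred_eq]; omega) (Fin.ext h1)
      omega
  rwa [Finset.card_range] at hcard

theorem G_cyc6 : CycConn G 6 := by
  classical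
  rintro D hD hcard ⟨C₁, C₂, hne, ⟨v₁, p₁, hp₁, hc₁⟩, ⟨v₂, p₂, hp₂, hc₂⟩⟩
  obtain ⟨β, hβ⟩ : ∃ β : ℕ → Bool, ∀ i, β i = true ↔
      (G.deleteEdges D).connectedComponentMk (q (ov i)) = C₁ :=
    ⟨fun i => decide ((G.deleteEdges D).connectedComponentMk (q (ov i)) = C₁), fun i => by simp⟩
  have hcut : ∀ i j, j < 3 → i < 190 → pp i j < i → β i ≠ β (pp i j) →
      s(q (ov i), q (nbr (ov i) j)) ∈ D := by
    intro i j hj hi hpi hij
    by_contra hcon
    have hov := (O_spec hi).1
    have hnb := (nb_spec hov hj).1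
    have h1 : (G.deleteEdges D).Adj (q (ov i)) (q (nbr (ov i) j)) := by
      rw [SimpleGraph.deleteEdges_adj]; exact ⟨G_adj_q hov hj, hcon⟩
    have h2 : (G.deleteEdges D).connectedComponentMk (q (ov i)) =
        (G.deleteEdges D).connectedComponentMk (q (nbr (ov i) j)) :=
      SimpleGraph.ConnectedComponent.sound h1.reachable
    apply hij
    have h3 : ov (pp i j) = nbr (ov i) j := (O_spec hnb).2.2.2.1
    rw [Bool.eq_iff_iff, hβ, hβ, h3, h2]
  have hle : Cn β 190 ≤ 5 := by
    rw [Cn_eq]
    obtain ⟨X, hX⟩ : ∃ X, X = ((Finset.range 190) ×ˢ (Finset.range 3)).filter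
      (fun x : ℕ × ℕ => pp x.1 x.2 < x.1 ∧ β x.1 ≠ β (pp x.1 x.2)) := ⟨_, rfl⟩
    rw [← hX]
    have hmem : ∀ x, x ∈ X ↔ (x.1 < 190 ∧ x.2 < 3) ∧ pp x.1 x.2 < x.1 ∧ β x.1 ≠ β (pp x.1 x.2) := by
      intro x
      rw [hX, Finset.mem_filter, Finset.mem_product, Finset.mem_range, Finset.mem_range]
    let F : ℕ × ℕ → Sym2 (Fin 190) := fun x => s(q (ov x.1), q (nbr (ov x.1) x.2))
    have hinj : Set.InjOn F X := by
      intro x hx y hy hxy
      rw [Finset.mem_coe, hmem] at hx hy
      obtain ⟨⟨hx1, hx2⟩, hx3, -⟩ := hx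
      obtain ⟨⟨hy1, hy2⟩, hy3, -⟩ := hy
      have ox := O_spec hx1
      have oy := O_spec hy1
      have nx := nb_spec ox.1 hx2
      have ny := nb_spec oy.1 hy2
      have hxy' : s(q (ov x.1), q (nbr (ov x.1) x.2)) = s(q (ov y.1), q (nbr (ov y.1) y.2)) := hxy
      rw [Sym2.eq_iff] at hxy'
      rcases hxy' with ⟨h1, h2⟩ | ⟨h1, h2⟩
      · have e1 := q_inj ox.1 oy.1 h1
        have e2 : x.1 = y.1 := by rw [← ox.2.2.1, ← oy.2.2.1, e1]
        have e3 := q_inj nx.1 ny.1 h2
        rw [e2] at e3
        have hn := nb_ne oy.1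
        have e4 : x.2 = y.2 := by
          by_contra hcon
          have c1 : x.2 = 0 ∨ x.2 = 1 ∨ x.2 = 2 := by omega
          have c2 : y.2 = 0 ∨ y.2 = 1 ∨ y.2 = 2 := by omega
          rcases c1 with c1 | c1 | c1 <;> rcases c2 with c2 | c2 | c2 <;>
            rw [c1, c2] at e3 <;> first
            | exact hcon (c1.trans c2.symm)
            | exact hn.1 e3
            | exact hn.1 e3.symm
            | exact hn.2.1 e3
            | exact hn.2.1 e3.symm
            | exact hn.2.2 e3
            | exact hn.2.2 e3.symm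
        exact Prod.ext e2 e4
      · exfalso
        have e1 := q_inj ox.1 ny.1 h1
        have e2 := q_inj nx.1 oy.1 h2
        unfold pp at hx3 hy3
        rw [e2, oy.2.2.1] at hx3
        rw [← e1, ox.2.2.1] at hy3
        omega
    have hsub : ((X.image F : Finset (Sym2 (Fin 190))) : Set (Sym2 (Fin 190))) ⊆ D := by
      intro e he
      rw [Finset.mem_coe, Finset.mem_image] at he
      obtain ⟨x, hx, rfl⟩ := he
      rw [hmem] at hx
      exact hcut _ _ hx.1.2 hx.1.1 hx.2.1 hx.2.2
    have h1 : ((X.image F : Finset (Sym2 (Fin 190))) : Set (Sym2 (Fin 190))).encard < 6 :=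
      lt_of_le_of_lt (Set.encard_le_encard hsub) hcard
    rw [Set.encard_coe_eq_coe_finsetCard, Finset.card_image_of_injOn hinj] at h1
    have h2 : (X.card : ℕ) < 6 := by exact_mod_cast h1
    omega
  have hrow : ∀ u : Fin 190, q (ov (ps u.val)) = u := by
    intro u
    rw [(O_spec u.isLt).2.2.2.1, q_self]
  have h1 : 6 ≤ Tn β 190 := by
    refine six p₁ hp₁ β fun u hu => ?_
    rw [hβ, hrow, ← hc₁]
    exact (SimpleGraph.ConnectedComponent.sound hu).symm
  have h2 : 6 ≤ Tn (fun i => !β i) 190 := by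
    refine six p₂ hp₂ _ fun u hu => ?_
    have h3 : ¬ β (ps u.val) = true := by
      rw [hβ, hrow]
      intro h
      apply hne
      rw [← h, ← hc₂]
      exact (SimpleGraph.ConnectedComponent.sound hu).symm
    simpa using h3
  rcases few hle with h | h <;> omega

end Pool.Agent.Helper905RS
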