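import Pool.Agent.Helper905RS.Sound

/-!
The search, split according to the first true position.
-/

set_option autoImplicit false

namespace Pool.Agent.Helper905RS

open Pool.Agent.Helper316TS

/-- the searches whose first true position is in `[a, b)` -/
def chkA (a b : ℕ) : Bool := allLT b fun i => Nat.blt i a ||
  frc (Nat.pow 2 i) fun m => frc (Lt i) fun c => srch (Nat.sub 189 i) (Nat.succ i) m c 1

theorem A_spec {a b : ℕ} (h : chkA a b = true) {i : ℕ} (ha : a ≤ i) (hb : i < b) :
    srch (189 - i) (i + 1) (2 ^ i) (Lt i) 1 = true := by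
  have h1 := allLT_spec h i hb
  rw [Bool.or_eq_true, Nat.blt_eq, frc_eq, frc_eq] at h1
  exact h1.resolve_left (by omega)

end Pool.Agent.Helper905RS
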