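import Pool.Agent.Helper905RS.Tables

/-!
Rotation snarks: the definition, and the rotation of the graph.
-/

set_option autoImplicit false

namespace Pool.Agent.Helper905RS

open Pool.Agent.Helper316TS

/-- parent of `v` in the plane tree `T_i` whose vertices are numbered level by level and clockwise
inside each level: 0 is the centre, 1, 2, 3 are its neighbours, and the children of `v ≥ 1` are
`2v + 2` and `2v + 3` -/
def parent (v : ℕ) : ℕ := if v ≤ 3 then 0 else (v - 2) / 2

/-- `G` has a spanning tree isomorphic to `T_i` whose leaves can be labelled `0, ..., l - 1`,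
`l = 3 * 2 ^ (i - 1)`, as in the definition of rotation `T_i`-snarks. Here `f v` is the vertex of `G`
with number `v` in the plane tree `T_i` (`3 * 2 ^ i - 2` vertices, numbered as for `parent`); its
leaves are those with the numbers `l - 2 + a`, `a < l`, in clockwise order on the circle, the leaf
`l - 2 + a` has the label `a`, and the labels `l - 1` and `0` belong to different branches at the
centre. -/
def RotTree {V : Type} (G : SimpleGraph V) (i : ℕ) : Prop :=
  ∃ f : ℕ → V, Set.BijOn f (Set.Iio (3 * 2 ^ i - 2)) Set.univ ∧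
    (∀ v, v ≠ 0 → v < 3 * 2 ^ i - 2 → G.Adj (f v) (f (parent v))) ∧
    ∀ l, l = 3 * 2 ^ (i - 1) → ∀ a b, a < l → b < l → G.Adj (f (l - 2 + a)) (f (l - 2 + b)) →
      G.Adj (f (l - 2 + (a + l / 3) % l)) (f (l - 2 + (b + l / 3) % l))

/-- rotation `T_i`-snarks -/
def RotationSnark {V : Type} (G : SimpleGraph V) (i : ℕ) : Prop :=
  Snark G ∧ RotTree G i

def chkR : Bool := allLT 190 fun i => Nat.blt (rv i) 190 && Nat.blt (ri i) 190 &&
  ri (rv i) == i && rv (ri i) == i && (i == 0 || adjB (rv i) (rv (parent i)))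

theorem chkR_true : chkR = true := by decide +kernel

theorem R_spec {i : ℕ} (hi : i < 190) : rv i < 190 ∧ ri i < 190 ∧ ri (rv i) = i ∧ rv (ri i) = i ∧
    (i ≠ 0 → adjB (rv i) (rv (parent i)) = true) := by
  have := allLT_spec chkR_true i hi
  simp only [Bool.and_eq_true, Bool.or_eq_true, Nat.blt_eq, beq_iff_eq] at this
  exact ⟨this.1.1.1.1, this.1.1.1.2, this.1.1.2, this.1.2, fun h => this.2.resolve_left h⟩

def chkS : Bool := allLT 96 fun a => allLT 96 fun b => !(adjB (rv (94 + a)) (rv (94 + b))) ||
  adjB (rv (94 + (a + 32) % 96)) (rv (94 + (b + 32) % 96))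

theorem chkS_true : chkS = true := by decide +kernel

theorem S_spec {a b : ℕ} (ha : a < 96) (hb : b < 96)
    (h : adjB (rv (94 + a)) (rv (94 + b)) = true) :
    adjB (rv (94 + (a + 32) % 96)) (rv (94 + (b + 32) % 96)) = true := by
  have := allLT_spec (allLT_spec chkS_true a ha) b hb
  rw [Bool.or_eq_true, Bool.not_eq_true', h] at this
  exact this.resolve_left (by simp)

theorem parent_lt {v : ℕ} (h : v ≠ 0) : parent v < v := by
  unfold parent; split <;> omega

theorem G_rot : RotTree G 6 := by
  refine ⟨fun i => q (rv i), ?_, ?_, ?_⟩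
  · have hN : (3 * 2 ^ 6 - 2 : ℕ) = 190 := by norm_num
    rw [hN]
    refine ⟨fun x _ => Set.mem_univ _, ?_, ?_⟩
    · intro x hx y hy hxy
      have h1 := R_spec (Set.mem_Iio.1 hx)
      have h2 := R_spec (Set.mem_Iio.1 hy)
      have h3 := q_inj h1.1 h2.1 hxy
      rw [← h1.2.2.1, ← h2.2.2.1, h3]
    · intro u _
      have h1 := R_spec u.isLt
      refine ⟨ri u.val, Set.mem_Iio.2 h1.2.1, ?_⟩
      change q (rv (ri u.val)) = u
      rw [h1.2.2.2.1, q_self]
  · intro v h0 hv
    have hv' : v < 190 := by simpa using hv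
    have h1 := R_spec hv'
    have h2 := R_spec (lt_trans (parent_lt h0) hv')
    change G.Adj (q (rv v)) (q (rv (parent v)))
    rw [G_adj, q_val h1.1, q_val h2.1]
    exact h1.2.2.2.2 h0
  · intro l hl a b ha hb h
    have hl' : l = 96 := by rw [hl]; norm_num
    subst hl'
    change G.Adj (q (rv (94 + a))) (q (rv (94 + b))) at h
    change G.Adj (q (rv (94 + (a + 32) % 96))) (q (rv (94 + (b + 32) % 96)))
    have h1 := (R_spec (i := 94 + a) (by omega)).1
    have h2 := (R_spec (i := 94 + b) (by omega)).1
    have h3 := (R_spec (i := 94 + (a + 32) % 96) (by omega)).1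
    have h4 := (R_spec (i := 94 + (b + 32) % 96) (by omega)).1
    rw [G_adj, q_val h1, q_val h2] at h
    rw [G_adj, q_val h3, q_val h4]
    exact S_spec ha hb h

end Pool.Agent.Helper905RS
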