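import Pool.Agent.Helper905RS.Parts

/-!
The search succeeds (kernel computation, part 2).
-/

set_option autoImplicit false

namespace Pool.Agent.Helper905RS

theorem A1 : chkA 4 11 = true := by decide +kernel

theorem A5 : chkA 33 40 = true := by decide +kernel

theorem A9 : chkA 64 73 = true := by decide +kernel

theorem A13 : chkA 113 135 = true := by decide +kernel

end Pool.Agent.Helper905RS
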