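import Pool.Agent.Helper905RS.Parts

/-!
The search succeeds (kernel computation, part 3).
-/

set_option autoImplicit false

namespace Pool.Agent.Helper905RS

theorem A2 : chkA 11 18 = true := by decide +kernel

theorem A6 : chkA 40 46 = true := by decide +kernel

theorem A10 : chkA 73 80 = true := by decide +kernel

theorem A14 : chkA 135 171 = true := by decide +kernel

end Pool.Agent.Helper905RS
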