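import Pool.Agent.Helper905RS.Parts

/-!
The search succeeds (kernel computation, part 4).
-/

set_option autoImplicit false

namespace Pool.Agent.Helper905RS

theorem A3 : chkA 18 27 = true := by decide +kernel

theorem A7 : chkA 46 56 = true := by decide +kernel

theorem A11 : chkA 80 97 = true := by decide +kernel

theorem A15 : chkA 171 190 = true := by decide +kernel

end Pool.Agent.Helper905RS
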