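import Pool.Agent.Helper905RS.Search1
import Pool.Agent.Helper905RS.Search2
import Pool.Agent.Helper905RS.Search3
import Pool.Agent.Helper905RS.Search4

/-!
The parts of the search together.
-/

set_option autoImplicit false

namespace Pool.Agent.Helper905RS

open Pool.Agent.Helper316TS

theorem first_true {i : ℕ} (h1 : 1 ≤ i) (h2 : i < 190) :
    srch (189 - i) (i + 1) (2 ^ i) (Lt i) 1 = true := by
  by_cases c0 : i < 4
  · exact A_spec A0 (by omega) c0
  by_cases c1 : i < 11
  · exact A_spec A1 (by omega) c1
  by_cases c2 : i < 18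
  · exact A_spec A2 (by omega) c2
  by_cases c3 : i < 27
  · exact A_spec A3 (by omega) c3
  by_cases c4 : i < 33
  · exact A_spec A4 (by omega) c4
  by_cases c5 : i < 40
  · exact A_spec A5 (by omega) c5
  by_cases c6 : i < 46
  · exact A_spec A6 (by omega) c6
  by_cases c7 : i < 56
  · exact A_spec A7 (by omega) c7
  by_cases c8 : i < 64
  · exact A_spec A8 (by omega) c8
  by_cases c9 : i < 73
  · exact A_spec A9 (by omega) c9
  by_cases c10 : i < 80
  · exact A_spec A10 (by omega) c10
  by_cases c11 : i < 97
  · exact A_spec A11 (by omega) c11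
  by_cases c12 : i < 113
  · exact A_spec A12 (by omega) c12
  by_cases c13 : i < 135
  · exact A_spec A13 (by omega) c13
  by_cases c14 : i < 171
  · exact A_spec A14 (by omega) c14
  exact A_spec A15 (by omega) h2

end Pool.Agent.Helper905RS
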