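import Pool.Agent.Helper905RS.Parts

/-!
The search succeeds (kernel computation, part 1).
-/

set_option autoImplicit false

namespace Pool.Agent.Helper905RS

theorem A0 : chkA 1 4 = true := by decide +kernel

theorem A4 : chkA 27 33 = true := by decide +kernel

theorem A8 : chkA 56 64 = true := by decide +kernel

theorem A12 : chkA 97 113 = true := by decide +kernel

end Pool.Agent.Helper905RS
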