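import Pool.Agent.Helper905RS.Tables

/-!
Branch and bound over the 2-colourings of the vertices with at most five bichromatic edges.
-/

set_option autoImplicit false

namespace Pool.Agent.Helper905RS

open Pool.Agent.Helper316TS

/-- position of the `j`-th neighbour of the vertex at position `i` -/
def pp (i j : ℕ) : ℕ := ps (nbr (ov i) j)

/-- position of an earlier neighbour, or 255 -/
def bj (i j : ℕ) : ℕ := if pp i j < i then pp i j else 255

/-- 1 for an earlier neighbour -/
def lj (i j : ℕ) : ℕ := if pp i j < i then 1 else 0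

def chkO : Bool := allLT 190 fun i => Nat.blt (ov i) 190 && Nat.blt (ps i) 190 &&
  ps (ov i) == i && ov (ps i) == i && wt i == bj i 0 + 256 * bj i 1 + 65536 * bj i 2 &&
  Lt i == lj i 0 + lj i 1 + lj i 2

theorem chkO_true : chkO = true := by decide +kernel

theorem O_spec {i : ℕ} (hi : i < 190) : ov i < 190 ∧ ps i < 190 ∧ ps (ov i) = i ∧ ov (ps i) = i ∧
    wt i = bj i 0 + 256 * bj i 1 + 65536 * bj i 2 ∧ Lt i = lj i 0 + lj i 1 + lj i 2 := by
  have := allLT_spec chkO_true i hi
  simp only [Bool.and_eq_true, Nat.blt_eq, beq_iff_eq] at this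
  exact ⟨this.1.1.1.1.1, this.1.1.1.1.2, this.1.1.1.2, this.1.1.2, this.1.2, this.2⟩

/-- forces the evaluation of `n` -/
def frc (n : ℕ) (f : ℕ → Bool) : Bool := Nat.rec (f 0) (fun k _ => f (Nat.succ k)) n

theorem frc_eq (n : ℕ) (f : ℕ → Bool) : frc n f = f n := by cases n <;> rfl

/-- number of true bits of `m` at the three places packed in `w` -/
def k1 (m w : ℕ) : ℕ :=
  Nat.add (Nat.add (Nat.mod (Nat.shiftRight m (Nat.mod w 256)) 2)
    (Nat.mod (Nat.shiftRight m (Nat.mod (Nat.shiftRight w 8) 256)) 2))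
    (Nat.mod (Nat.shiftRight m (Nat.shiftRight w 16)) 2)

/-- the search: `r` steps remain, `i` vertices are coloured, `m` is the mask of the true ones, `c` the
number of bichromatic edges, `t` the number of true vertices -/
def srch (r : ℕ) : ℕ → ℕ → ℕ → ℕ → Bool :=
  Nat.rec (fun _ _ _ t => Nat.ble t 5 || Nat.ble 185 t)
    (fun _ ih i m c t => frc (k1 m (wt i)) fun k => frc (Nat.succ i) fun i' =>
      (frc (Nat.add c k) fun c' => Nat.ble 6 c' || ih i' m c' t) &&
      (frc (Nat.add c (Nat.sub (Lt i) k)) fun c' => Nat.ble 6 c' ||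
        frc (Nat.lor m (Nat.pow 2 i)) fun m' => frc (Nat.succ t) fun t' => ih i' m' c' t')) r

theorem srch_zero (i m c t : ℕ) : srch 0 i m c t = (Nat.ble t 5 || Nat.ble 185 t) := rfl

theorem srch_succ (r i m c t : ℕ) : srch (r + 1) i m c t =
    ((Nat.ble 6 (c + k1 m (wt i)) || srch r (i + 1) m (c + k1 m (wt i)) t) &&
      (Nat.ble 6 (c + (Lt i - k1 m (wt i))) ||
        srch r (i + 1) (m ||| 2 ^ i) (c + (Lt i - k1 m (wt i))) (t + 1))) := by
  change (frc (k1 m (wt i)) fun k => frc (Nat.succ i) fun i' =>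
      (frc (Nat.add c k) fun c' => Nat.ble 6 c' || srch r i' m c' t) &&
      (frc (Nat.add c (Nat.sub (Lt i) k)) fun c' => Nat.ble 6 c' ||
        frc (Nat.lor m (Nat.pow 2 i)) fun m' => frc (Nat.succ t) fun t' => srch r i' m' c' t')) = _
  simp only [frc_eq]
  rfl

/-- mask of the first `n` places -/
def Mk (β : ℕ → Bool) : ℕ → ℕ
  | 0 => 0
  | n + 1 => if β n then Mk β n ||| 2 ^ n else Mk β n

theorem Mk_bit (β : ℕ → Bool) (n b : ℕ) : (Mk β n).testBit b = (decide (b < n) && β b) := by
  induction n with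
  | zero => simp [Mk]
  | succ n ih =>
    by_cases hb : b = n
    · subst hb
      cases h : β b <;> simp [Mk, h, ih, Nat.testBit_or, Nat.testBit_two_pow]
    · have h1 : decide (n = b) = false := by simp; omega
      have h2 : decide (b < n + 1) = decide (b < n) := by
        by_cases h3 : b < n
        · simp [h3]; omega
        · simp [h3]; omega
      rw [h2, ← ih]
      cases h : β n <;> simp [Mk, h, Nat.testBit_or, Nat.testBit_two_pow, h1]

/-- bit as a number -/
def bt (b : Bool) : ℕ := if b then 1 else 0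

theorem shr_bit (m b : ℕ) : (m >>> b) % 2 = bt (m.testBit b) := by
  rw [Nat.shiftRight_eq_div_pow, ← Nat.toNat_testBit]
  cases m.testBit b <;> rfl

/-- bichromatic earlier half-edges -/
def tt (β : ℕ → Bool) (i j : ℕ) : ℕ := if pp i j < i ∧ β i ≠ β (pp i j) then 1 else 0

theorem bj_le {i j : ℕ} (hi : i < 190) : bj i j < 256 := by
  unfold bj; split <;> omega

theorem k1_spec (β : ℕ → Bool) {i : ℕ} (hi : i < 190) :
    k1 (Mk β i) (wt i) = bt (decide (pp i 0 < i) && β (pp i 0)) +
      bt (decide (pp i 1 < i) && β (pp i 1)) + bt (decide (pp i 2 < i) && β (pp i 2)) := by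
  have hw := (O_spec hi).2.2.2.2.1
  have h0 := bj_le (j := 0) hi
  have h1 := bj_le (j := 1) hi
  have h2 := bj_le (j := 2) hi
  have e : k1 (Mk β i) (wt i) = (Mk β i >>> (wt i % 256)) % 2 +
      (Mk β i >>> ((wt i >>> 8) % 256)) % 2 + (Mk β i >>> (wt i >>> 16)) % 2 := rfl
  have e0 : wt i % 256 = bj i 0 := by omega
  have e1 : (wt i >>> 8) % 256 = bj i 1 := by
    rw [Nat.shiftRight_eq_div_pow]; omega
  have e2 : wt i >>> 16 = bj i 2 := by
    rw [Nat.shiftRight_eq_div_pow]; omega
  have key : ∀ j, (Mk β i).testBit (bj i j) = (decide (pp i j < i) && β (pp i j)) := by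
    intro j
    rw [Mk_bit]
    unfold bj
    by_cases h : pp i j < i
    · simp [h]
    · have : ¬ (255 < i) := by omega
      simp [h, this]
  rw [e, e0, e1, e2, shr_bit, shr_bit, shr_bit, key, key, key]

/-- number of bichromatic edges among the first `n` places -/
def Cn (β : ℕ → Bool) (n : ℕ) : ℕ := ∑ i ∈ Finset.range n, (tt β i 0 + tt β i 1 + tt β i 2)

/-- number of true places among the first `n` -/
def Tn (β : ℕ → Bool) (n : ℕ) : ℕ := ∑ i ∈ Finset.range n, bt (β i)

theorem tt_false {β : ℕ → Bool} {i j : ℕ} (h : β i = false) :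
    tt β i j = bt (decide (pp i j < i) && β (pp i j)) := by
  unfold tt bt
  rw [h]
  by_cases h1 : pp i j < i <;> cases h2 : β (pp i j) <;> simp [h1]

theorem tt_true {β : ℕ → Bool} {i j : ℕ} (h : β i = true) :
    tt β i j + bt (decide (pp i j < i) && β (pp i j)) = lj i j := by
  unfold tt bt lj
  rw [h]
  by_cases h1 : pp i j < i <;> cases h2 : β (pp i j) <;> simp [h1]

theorem Cn_mono (β : ℕ → Bool) {m n : ℕ} (h : m ≤ n) : Cn β m ≤ Cn β n := by
  unfold Cn
  exact Finset.sum_le_sum_of_subset (Finset.range_mono h)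

theorem srch_sound (β : ℕ → Bool) (hC : Cn β 190 ≤ 5) (n : ℕ) (hn : n ≤ 190) (n0 : ℕ) (hn0 : n0 ≤ n)
    (h0 : srch (190 - n0) n0 (Mk β n0) (Cn β n0) (Tn β n0) = true) :
    srch (190 - n) n (Mk β n) (Cn β n) (Tn β n) = true := by
  induction n, hn0 using Nat.le_induction with
  | base => exact h0
  | succ n hn0 ih =>
    have ih' := ih (by omega)
    have hr : 190 - n = (190 - (n + 1)) + 1 := by omega
    rw [hr, srch_succ, Bool.and_eq_true] at ih'
    have hk := k1_spec β (i := n) (by omega)
    have hL := (O_spec (i := n) (by omega)).2.2.2.2.2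
    have hCn : Cn β (n + 1) = Cn β n + (tt β n 0 + tt β n 1 + tt β n 2) := by
      unfold Cn; rw [Finset.sum_range_succ]
    have hTn : Tn β (n + 1) = Tn β n + bt (β n) := by
      unfold Tn; rw [Finset.sum_range_succ]
    have hle := Cn_mono β hn
    cases hb : β n with
    | false =>
      have h1 : Cn β (n + 1) = Cn β n + k1 (Mk β n) (wt n) := by
        rw [hCn, hk, tt_false hb, tt_false hb, tt_false hb]
      have h2 : Tn β (n + 1) = Tn β n := by rw [hTn, hb]; rfl
      have h3 : Mk β (n + 1) = Mk β n := by simp [Mk, hb]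
      have h4 := ih'.1
      rw [← h1, Bool.or_eq_true, Nat.ble_eq] at h4
      rw [h2, h3]
      exact h4.resolve_left (by omega)
    | true =>
      have t0 := tt_true (j := 0) hb
      have t1 := tt_true (j := 1) hb
      have t2 := tt_true (j := 2) hb
      have h1 : Cn β (n + 1) = Cn β n + (Lt n - k1 (Mk β n) (wt n)) := by
        rw [hCn, hk, hL]; omega
      have h2 : Tn β (n + 1) = Tn β n + 1 := by rw [hTn, hb]; rfl
      have h3 : Mk β (n + 1) = Mk β n ||| 2 ^ n := by simp [Mk, hb]
      have h4 := ih'.2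
      rw [← h1, Bool.or_eq_true, Nat.ble_eq] at h4
      rw [h2, h3]
      exact h4.resolve_left (by omega)

end Pool.Agent.Helper905RS
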